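import Pool.Agent.H52.TF4

set_option autoImplicit false

namespace Pool.Agent.Results.MP_32acdc_lc.Undec

open Pool.Agent.H52.TF

theorem result : ¬ ComputablePred Theory := undec

end Pool.Agent.Results.MP_32acdc_lc.Undec
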